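import Pool.Agent.Helper98.TA.Defs

/-!
Iterated extensions by compact abelian Lie groups (MP_7a8f48_an): statements of the sheet TA.
-/

open MeasureTheory Filter Topology Finset
open scoped ComplexConjugate

namespace Pool.Agent.Helper98.TA

open Pool.Agent.Helper98.TW (SA jo bo cm AM UF BF Sys Lm IA LQ Inc sg Grp SM Sat al)
open Pool.Agent.Helper40.TWM (St HQ)
open Pool.Agent.Helper98.GY (JY JJY)

/-! ### Block B: sigma algebras -/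

/-- BMT: the intersection of two sigma algebras. -/
def ST_BMT : Prop := ∀ (Ω : Type) [MeasurableSpace Ω] (μ : Measure Ω) [IsProbabilityMeasure μ]
  (S S' : Ω → Ω) (D E : SA Ω), Sys μ S S' → Lm D → Lm E →
  Lm (mt μ D E) ∧ (∀ f : Ω → ℂ, AM μ (mt μ D E) f ↔ AM μ D f ∧ AM μ E f) ∧
  (IA μ D S S' → IA μ E S S' → IA μ (mt μ D E) S S')

/-- BSP: unions of chains. -/
def ST_BSP : Prop := ∀ (Ω : Type) [MeasurableSpace Ω] (μ : Measure Ω) [IsProbabilityMeasure μ]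
  (S S' : Ω → Ω) (c : Set (SA Ω)), Sys μ S S' → c.Nonempty →
  (∀ D ∈ c, ∀ D' ∈ c, @LE.le (MeasurableSpace Ω) _ D D' ∨ @LE.le (MeasurableSpace Ω) _ D' D) →
  (∀ D ∈ c, IA μ D S S') → ∃ D₁ : SA Ω, IA μ D₁ S S' ∧
  (∀ D ∈ c, @LE.le (MeasurableSpace Ω) _ D D₁) ∧
  ∀ (κ : Measure (Ω × Ω)) [IsProbabilityMeasure κ] (F : Ω × Ω → ℂ), κ.map Prod.fst = μ → BF F →
    (∀ D ∈ c, κ[F|jo (B2 Ω) (J1 D)] =ᵐ[κ] 0) → κ[F|jo (B2 Ω) (J1 D₁)] =ᵐ[κ] 0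

/-- BGN: the extension by an invariant set of functions. -/
def ST_BGN : Prop := ∀ (Ω : Type) [MeasurableSpace Ω] (μ : Measure Ω) [IsProbabilityMeasure μ]
  (S S' : Ω → Ω) (D : SA Ω) (Φ : Set (Ω → ℂ)), Sys μ S S' → IA μ D S S' →
  (∀ φ ∈ Φ, Measurable φ ∧ AM μ (jo D (sg Φ)) (fun x => φ (S x)) ∧
    AM μ (jo D (sg Φ)) (fun x => φ (S' x))) → IA μ (jo D (sg Φ)) S S'

/-! ### Block A: increments and chains -/

/-- SIN: increments for a power. -/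
def ST_SIN : Prop := ∀ (Ω : Type) [MeasurableSpace Ω] (μ : Measure Ω) [IsProbabilityMeasure μ]
  (S S' : Ω → Ω) (u : ℕ → Ω → ℂ) (A : ℕ → SA Ω) (N : ℕ) (C : SA Ω) (p : ℕ), St μ S S' →
  Tr μ S u A N → IA μ C S S' → 1 ≤ p →
  (∀ ψ, UF μ ψ → Inc μ C S ψ → AM μ C (fun x => ψ x ^ p) → AM μ C ψ) →
  ∀ ψ, UF μ ψ → Inc μ C S^[p] ψ → Inc μ C S ψ

/-- TER: the trivial algebra is saturated; eigenfunctions of powers. -/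
def ST_TER : Prop := ∀ (Ω : Type) [MeasurableSpace Ω] (μ : Measure Ω) [IsProbabilityMeasure μ]
  (S S' : Ω → Ω), St μ S S' → Sa μ S bo ∧
  ∀ m : ℕ, 1 ≤ m → ∀ ψ, UF μ ψ → Inc μ bo S^[m] ψ → Inc μ bo S ψ

/-- SCH: every invariant algebra has a saturated torsion extension. -/
def ST_SCH : Prop := ∀ (Ω : Type) [MeasurableSpace Ω] (μ : Measure Ω) [IsProbabilityMeasure μ]
  (S S' : Ω → Ω) (u : ℕ → Ω → ℂ) (A : ℕ → SA Ω) (N : ℕ), St μ S S' → Tr μ S u A N →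
  ∀ s : SA Ω, IA μ s S S' → ∃ E : SA Ω, Ct μ S s E ∧ Sa μ S E

/-- SGT: the stages exhaust the space. -/
def ST_SGT : Prop := ∀ (Ω : Type) [MeasurableSpace Ω] (μ : Measure Ω) [IsProbabilityMeasure μ]
  (S S' : Ω → Ω) (u : ℕ → Ω → ℂ) (A : ℕ → SA Ω) (N : ℕ), St μ S S' → Tr μ S u A N →
  ∃ s : SA Ω, Sg μ S s ∧ ∀ f : Ω → ℂ, Measurable f → AM μ s f

/-- ABX: stages and their torsion extensions are chains of abelian extensions. -/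
def ST_ABX : Prop := ∀ (Ω : Type) [MeasurableSpace Ω] (μ : Measure Ω) [IsProbabilityMeasure μ]
  (S S' : Ω → Ω), Sys μ S S' →
  (∀ s E : SA Ω, Sg μ S s → Ct μ S s E → IA μ E S S' ∧ ∃ l : ℕ, ∀ p : ℕ, Ab μ S^[p] bo E l) ∧
  ∀ (u : ℕ → Ω → ℂ) (A : ℕ → SA Ω) (N : ℕ), Tr μ S u A N →
    ∀ k p : ℕ, IA μ (A k) S S' ∧ Ab μ S^[p] bo (A k) k

/-- SMC: modules of small rank along a chain of abelian extensions. -/
def ST_SMC : Prop := ∀ (Ω : Type) [MeasurableSpace Ω] (μ : Measure Ω) [IsProbabilityMeasure μ]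
  (R R' : Ω → Ω) (C E : SA Ω) (l n : ℕ), Sys μ R R' → Ergodic R μ → IA μ C R R' →
  Ab μ R bo E l → Sat μ C (jo C E) R (n ^ 2 ^ l) → SM μ C (jo C E) R n

/-- SME: modules of finite rank over saturated algebras. -/
def ST_SME : Prop := ∀ (Ω : Type) [MeasurableSpace Ω] (μ : Measure Ω) [IsProbabilityMeasure μ]
  (S S' : Ω → Ω) (u : ℕ → Ω → ℂ) (A : ℕ → SA Ω) (N : ℕ) (E : SA Ω), St μ S S' → Tr μ S u A N →
  IA μ E S S' → Sa μ S E → ∀ p : ℕ, 1 ≤ p →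
  (∀ ψ, UF μ ψ → Inc μ E S^[p] ψ → Inc μ E S ψ) ∧
  ∀ n : ℕ, SM μ E (inferInstance : MeasurableSpace Ω) S^[p] n

/-! ### Block H: the hull -/

/-- HQ0: the trivial algebra. -/
def ST_HQ0 : Prop := ∀ (Ω : Type) [MeasurableSpace Ω] (μ : Measure Ω) [IsProbabilityMeasure μ]
  (S S' : Ω → Ω) (p q : ℕ) (κ : Measure (Ω × Ω)), St μ S S' → p.Prime → q.Prime → p ≠ q →
  JY S μ p q κ → QQ μ S q κ bo

/-- HQS: the property of the hull passes to unions of chains. -/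
def ST_HQS : Prop := ∀ (Ω : Type) [MeasurableSpace Ω] (μ : Measure Ω) [IsProbabilityMeasure μ]
  (S S' : Ω → Ω) (p q : ℕ) (κ : Measure (Ω × Ω)) (c : Set (SA Ω)), St μ S S' →
  JY S μ p q κ → c.Nonempty →
  (∀ D ∈ c, ∀ D' ∈ c, @LE.le (MeasurableSpace Ω) _ D D' ∨ @LE.le (MeasurableSpace Ω) _ D' D) →
  (∀ D ∈ c, IA μ D S S' ∧ QQ μ S q κ D) → ∃ D₁ : SA Ω, IA μ D₁ S S' ∧ QQ μ S q κ D₁ ∧
  ∀ D ∈ c, @LE.le (MeasurableSpace Ω) _ D D₁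

/-- HQC: adjoining roots. -/
def ST_HQC : Prop := ∀ (Ω : Type) [MeasurableSpace Ω] (μ : Measure Ω) [IsProbabilityMeasure μ]
  (S S' : Ω → Ω) (p q : ℕ) (κ : Measure (Ω × Ω)) (D : SA Ω), St μ S S' → q.Prime →
  JY S μ p q κ → IA μ D S S' → QQ μ S q κ D →
  ∀ Ψ : Set (Ω → ℂ), Ψ = {ψ | UF μ ψ ∧ Inc μ D S^[p] ψ ∧
      ∃ M : ℕ, 1 ≤ M ∧ Nat.Coprime M q ∧ AM μ D fun x => ψ x ^ M} →
    IA μ (jo D (sg Ψ)) S S' ∧ QQ μ S q κ (jo D (sg Ψ))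

/-- HQB: adjoining visible functions. -/
def ST_HQB : Prop := ∀ (Ω : Type) [MeasurableSpace Ω] (μ : Measure Ω) [IsProbabilityMeasure μ]
  (S S' : Ω → Ω) (p q : ℕ) (κ : Measure (Ω × Ω)) (D : SA Ω), St μ S S' →
  JY S μ p q κ → IA μ D S S' → QQ μ S q κ D →
  (∀ ψ, UF μ ψ → Inc μ D S^[p] ψ → Inc μ D S ψ) →
  ∀ Ψ : Set (Ω → ℂ), Ψ = {ψ | UF μ ψ ∧ Inc μ D S^[p] ψ ∧ Vi κ D ψ} →
    IA μ (jo D (sg Ψ)) S S' ∧ QQ μ S q κ (jo D (sg Ψ))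

/-- HUX: the hull exists. -/
def ST_HUX : Prop := ∀ (Ω : Type) [MeasurableSpace Ω] (μ : Measure Ω) [IsProbabilityMeasure μ]
  (S S' : Ω → Ω) (u : ℕ → Ω → ℂ) (A : ℕ → SA Ω) (N p q : ℕ) (κ : Measure (Ω × Ω)),
  St μ S S' → Tr μ S u A N → p.Prime → q.Prime → p ≠ q → JY S μ p q κ →
  ∃ D : SA Ω, Hl μ S S' p q κ D

/-- HSM: modules of small rank over the hull and over its intersections. -/
def ST_HSM : Prop := ∀ (Ω : Type) [MeasurableSpace Ω] (μ : Measure Ω) [IsProbabilityMeasure μ]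
  (S S' : Ω → Ω) (p q : ℕ) (κ : Measure (Ω × Ω)) (D E : SA Ω) (l n : ℕ), St μ S S' →
  p.Prime → q.Prime → JY S μ p q κ → Hl μ S S' p q κ D → IA μ E S S' →
  (∀ p : ℕ, Ab μ S^[p] bo E l) → n ^ 2 ^ l < q → SM μ (mt μ D E) E S^[p] n

/-! ### Block W: relative weak mixing -/

/-- WMG: correlations with a second function. -/
def ST_WMG : Prop := ∀ (Ω : Type) [MeasurableSpace Ω] (μ : Measure Ω) [IsProbabilityMeasure μ]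
  (R R' : Ω → Ω) (C : SA Ω) (f g : Ω → ℂ), Sys μ R R' → IA μ C R R' → BF f → BF g →
  A0 μ C R f → Tendsto (fun H : ℕ => (∑ h ∈ range H,
    ∫ x, ‖(μ[fun x => conj (g x) * f (R^[h] x)|C]) x‖ ^ 2 ∂μ) / (H : ℝ)) atTop (𝓝 0)

/-- WM1: unimodular functions with increments are orthogonal. -/
def ST_WM1 : Prop := ∀ (Ω : Type) [MeasurableSpace Ω] (μ : Measure Ω) [IsProbabilityMeasure μ]
  (R R' : Ω → Ω) (C : SA Ω) (f : Ω → ℂ), Sys μ R R' → IA μ C R R' → BF f → A0 μ C R f →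
  (∀ φ, UF μ φ → Inc μ C R φ → μ[fun x => f x * conj (φ x)|C] =ᵐ[μ] 0) ∧
  ∀ Φ : Set (Ω → ℂ), Grp μ Φ → (∀ φ ∈ Φ, Inc μ C R φ) → μ[f|jo C (sg Φ)] =ᵐ[μ] 0

/-- WMF: torsion extensions. -/
def ST_WMF : Prop := ∀ (Ω : Type) [MeasurableSpace Ω] (μ : Measure Ω) [IsProbabilityMeasure μ]
  (R R' : Ω → Ω) (C : SA Ω) (f τ : Ω → ℂ) (M : ℕ), Sys μ R R' → Ergodic R μ → IA μ C R R' →
  BF f → UF μ τ → Inc μ C R τ → 1 ≤ M → AM μ C (fun x => τ x ^ M) → A0 μ C R f →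
  A0 μ (ad μ C τ) R f

/-- WAL: functions which are orthogonal to the next stage. -/
def ST_WAL : Prop := ∀ (Ω : Type) [MeasurableSpace Ω] (μ : Measure Ω) [IsProbabilityMeasure μ]
  (S S' : Ω → Ω) (u : ℕ → Ω → ℂ) (A : ℕ → SA Ω) (N : ℕ) (E : SA Ω) (f : Ω → ℂ), St μ S S' →
  Tr μ S u A N → IA μ E S S' → Sa μ S E → BF f → μ[f|fr μ S E] =ᵐ[μ] 0 →
  ∀ p : ℕ, 1 ≤ p → A0 μ E S^[p] f

/-- WAJ: from the first coordinate to the joining. -/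
def ST_WAJ : Prop := ∀ (Ω : Type) [MeasurableSpace Ω] (μ : Measure Ω) [IsProbabilityMeasure μ]
  (S S' : Ω → Ω) (s E : SA Ω) (f : Ω → ℂ) (p q : ℕ) (κ : Measure (Ω × Ω)), St μ S S' →
  IA μ s S S' → IA μ E S S' → LQ μ s E → BF f → Ri μ S s → A0 μ E S^[p] f → 1 ≤ p → 1 ≤ q →
  JY S μ p q κ →
  A0 κ (jo (J1 s) (J2 s)) (Prod.map S^[p] S^[q]) (fun z => f z.1)

/-- WTC: torsion extensions of the second coordinate. -/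
def ST_WTC : Prop := ∀ (Ω : Type) [MeasurableSpace Ω] (μ : Measure Ω) [IsProbabilityMeasure μ]
  (S S' : Ω → Ω) (s E : SA Ω) (f : Ω → ℂ) (p q : ℕ) (κ : Measure (Ω × Ω)), St μ S S' →
  IA μ s S S' → Ct μ S s E → BF f → 1 ≤ p → 1 ≤ q → JY S μ p q κ →
  A0 κ (jo (J1 s) (J2 s)) (Prod.map S^[p] S^[q]) (fun z => f z.1) →
  A0 κ (jo (J1 s) (J2 E)) (Prod.map S^[p] S^[q]) (fun z => f z.1)

/-! ### Block R: relative independence -/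

/-- RSW: exchange of the coordinates. -/
def ST_RSW : Prop := ∀ (Ω : Type) [MeasurableSpace Ω] (μ : Measure Ω) [IsProbabilityMeasure μ]
  (S : Ω → Ω) (p q : ℕ) (κ : Measure (Ω × Ω)) (E : SA Ω), Measurable S → Lm E → JY S μ p q κ →
  JY S μ q p (κ.map Prod.swap) ∧
  (Ri μ S E → 1 ≤ p → 1 ≤ q → ∀ F : Ω → ℂ, BF F →
    κ[fun z => F z.2|jo (J1 E) (J2 E)] =ᵐ[κ] κ[fun z => F z.2|J2 E]) ∧
  ∀ F : Ω × Ω → ℂ, AM (κ.map Prod.swap) (jo (J1 E) (J2 E)) F ↔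
    AM κ (jo (J1 E) (J2 E)) (fun z => F z.swap)

/-- RSB: the trivial algebra. -/
def ST_RSB : Prop := ∀ (Ω : Type) [MeasurableSpace Ω] (μ : Measure Ω) [IsProbabilityMeasure μ]
  (S : Ω → Ω), Ri μ S bo

/-- RSS: the next stage. -/
def ST_RSS : Prop := ∀ (Ω : Type) [MeasurableSpace Ω] (μ : Measure Ω) [IsProbabilityMeasure μ]
  (S S' : Ω → Ω) (u : ℕ → Ω → ℂ) (A : ℕ → SA Ω) (N : ℕ) (s E : SA Ω), St μ S S' →
  Tr μ S u A N → IA μ s S S' → Ct μ S s E → Sa μ S E → Ri μ S s → Ri μ S (fr μ S E)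

/-- RG1: the conditional expectation on the second coordinate. -/
def ST_RG1 : Prop := ∀ (Ω : Type) [MeasurableSpace Ω] (μ : Measure Ω) [IsProbabilityMeasure μ]
  (S S' : Ω → Ω) (E : SA Ω) (p q : ℕ) (κ : Measure (Ω × Ω)), St μ S S' → IA μ E S S' →
  Ri μ S E → 1 ≤ p → 1 ≤ q → JY S μ p q κ →
  (∀ F : Ω → ℂ, BF F → AM μ E F → κ[fun z => F z.1|B2 Ω] =ᵐ[κ] κ[fun z => F z.1|J2 E]) ∧
  ∀ w : Ω × Ω → ℂ, BF w → AM κ (jo (J1 E) (J2 E)) w → κ[w|B2 Ω] =ᵐ[κ] κ[w|J2 E]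

/-- RTH: functions with increments in a saturated algebra. -/
def ST_RTH : Prop := ∀ (Ω : Type) [MeasurableSpace Ω] (μ : Measure Ω) [IsProbabilityMeasure μ]
  (S S' : Ω → Ω) (s E : SA Ω) (p q : ℕ) (κ : Measure (Ω × Ω)) (θ : Ω → ℂ), St μ S S' →
  IA μ s S S' → Ct μ S s E → Sa μ S E → Ri μ S s → 1 ≤ p → 1 ≤ q → JY S μ p q κ → UF μ θ →
  Inc μ E S θ →
  (AM κ (jo (J1 E) (J2 E)) (fun z => θ z.1) → AM μ E θ) ∧
  (AM κ (jo (J1 E) (J2 E)) (fun z => θ z.2) → AM μ E θ)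

/-- RIE: relative independence for the saturated torsion extension of a stage. -/
def ST_RIE : Prop := ∀ (Ω : Type) [MeasurableSpace Ω] (μ : Measure Ω) [IsProbabilityMeasure μ]
  (S S' : Ω → Ω) (s E : SA Ω), St μ S S' → IA μ s S S' → Ct μ S s E → Sa μ S E → Ri μ S s →
  Ri μ S (fr μ S E) → Ri μ S E

/-- ROR: orthogonality. -/
def ST_ROR : Prop := ∀ (Ω : Type) [MeasurableSpace Ω] (μ : Measure Ω) [IsProbabilityMeasure μ]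
  (S S' : Ω → Ω) (s E : SA Ω) (p q : ℕ) (κ : Measure (Ω × Ω)), St μ S S' →
  IA μ s S S' → Ct μ S s E → Sa μ S E → Ri μ S s → Ri μ S (fr μ S E) → Ri μ S E →
  1 ≤ p → 1 ≤ q → JY S μ p q κ → ∀ ψ ψ' F F' : Ω → ℂ, UF μ ψ → UF μ ψ' → Inc μ E S ψ →
  Inc μ E S ψ' → ¬ AM μ E (fun x => ψ x * conj (ψ' x)) → BF F → BF F' →
  AM μ E (fun x => conj (ψ x) * F x) → AM μ E (fun x => conj (ψ' x) * F' x) →
  ∫ z, (κ[fun z => F z.1|B2 Ω]) z * conj ((κ[fun z => F' z.1|B2 Ω]) z) ∂κ = 0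

/-! ### Block V: the estimate -/

/-- VC1: the splitting of functions in a class. -/
def ST_VC1 : Prop := ∀ (Ω : Type) [MeasurableSpace Ω] (μ : Measure Ω) [IsProbabilityMeasure μ]
  (S S' : Ω → Ω) (p q : ℕ) (κ : Measure (Ω × Ω)) (D E : SA Ω) (h F : Ω → ℂ), St μ S S' →
  1 ≤ p → 1 ≤ q → JY S μ p q κ → Hl μ S S' p q κ D → IA μ E S S' → UF μ h → Inc μ E S h →
  BF F → AM μ E (fun x => conj (h x) * F x) →
  (∀ ψ, UF μ ψ → Inc μ (mt μ D E) S^[p] ψ → AM μ E (fun x => conj (h x) * ψ x) →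
    AM μ D ψ → μ[fun x => conj (ψ x) * F x|mt μ D E] =ᵐ[μ] 0) →
  ∃ F₁ F₂ : Ω → ℂ, BF F₁ ∧ BF F₂ ∧ (F =ᵐ[μ] fun x => F₁ x + F₂ x) ∧
    AM μ E (fun x => conj (h x) * F₂ x) ∧
    (∀ ψ, UF μ ψ → Inc μ (mt μ D E) S^[p] ψ → AM μ E (fun x => conj (h x) * ψ x) →
      μ[fun x => conj (ψ x) * F₂ x|mt μ D E] =ᵐ[μ] 0) ∧
    ∫ x, ‖F₂ x‖ ^ 2 ∂μ ≤ ∫ x, ‖F x‖ ^ 2 ∂μ ∧ κ[fun z => F₁ z.1|B2 Ω] =ᵐ[κ] 0

/-- VC2: functions orthogonal to all unimodular functions of the class. -/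
def ST_VC2 : Prop := ∀ (Ω : Type) [MeasurableSpace Ω] (μ : Measure Ω) [IsProbabilityMeasure μ]
  (S S' : Ω → Ω) (p q : ℕ) (κ : Measure (Ω × Ω)) (C E : SA Ω) (n : ℕ) (δ : ℝ) (h F : Ω → ℂ),
  St μ S S' → 1 ≤ p → 1 ≤ q → JY S μ p q κ → IA μ C S S' → IA μ E S S' → LQ μ C E →
  SM μ C E S^[p] n → 0 ≤ δ →
  (∀ G : Ω → ℂ, BF G → AM μ E G → μ[G|C] =ᵐ[μ] 0 → JJY κ G ≤ δ * ∫ x, ‖G x‖ ^ 2 ∂μ) →
  UF μ h → Inc μ E S h → BF F → AM μ E (fun x => conj (h x) * F x) →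
  (∀ ψ, UF μ ψ → Inc μ C S^[p] ψ → AM μ E (fun x => conj (h x) * ψ x) →
    μ[fun x => conj (ψ x) * F x|C] =ᵐ[μ] 0) →
  JJY κ F ≤ (1 / √((n : ℝ) + 1) + √δ) * ∫ x, ‖F x‖ ^ 2 ∂μ

/-- VCL: the class estimate. -/
def ST_VCL : Prop := ∀ (Ω : Type) [MeasurableSpace Ω] (μ : Measure Ω) [IsProbabilityMeasure μ]
  (S S' : Ω → Ω) (E : SA Ω) (l : ℕ), St μ S S' → IA μ E S S' →
  (∀ p : ℕ, Ab μ S^[p] bo E l) → Vp μ S S' E → Vc μ S S' E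

/-- VCO: the components of a function in the extension. -/
def ST_VCO : Prop := ∀ (Ω : Type) [MeasurableSpace Ω] (μ : Measure Ω) [IsProbabilityMeasure μ]
  (S S' : Ω → Ω) (p : ℕ) (D E E' : SA Ω) (h G : Ω → ℂ), St μ S S' → IA μ D S S' →
  IA μ E S S' → IA μ E' S S' → LQ μ E E' → UF μ h → Inc μ E S h → AM μ E' h → BF G →
  AM μ E' G → μ[G|mt μ D E'] =ᵐ[μ] 0 → ∃ F : Ω → ℂ, BF F ∧
  (F =ᵐ[μ] fun x => h x * (μ[fun x => conj (h x) * G x|E]) x) ∧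
  AM μ E (fun x => conj (h x) * F x) ∧
  ∀ ψ, UF μ ψ → Inc μ (mt μ D E) S^[p] ψ → AM μ E (fun x => conj (h x) * ψ x) →
    AM μ D ψ → μ[fun x => conj (ψ x) * F x|mt μ D E] =ᵐ[μ] 0

/-- VTO: torsion steps. -/
def ST_VTO : Prop := ∀ (Ω : Type) [MeasurableSpace Ω] (μ : Measure Ω) [IsProbabilityMeasure μ]
  (S S' : Ω → Ω) (E : SA Ω) (τ : Ω → ℂ) (M : ℕ), St μ S S' → IA μ E S S' → UF μ τ →
  Inc μ E S τ → 1 ≤ M → AM μ E (fun x => τ x ^ M) → Vc μ S S' E → Vp μ S S' (ad μ E τ)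

/-- VAP: approximation by finitely many classes. -/
def ST_VAP : Prop := ∀ (Ω : Type) [MeasurableSpace Ω] (μ : Measure Ω) [IsProbabilityMeasure μ]
  (S S' : Ω → Ω) (E : SA Ω) (G : Ω → ℂ) (ε : ℝ), St μ S S' → IA μ E S S' → BF G →
  AM μ (fr μ S E) G → 0 < ε → ∃ (m : ℕ) (h : Fin m → Ω → ℂ),
  (∀ i, UF μ (h i) ∧ Inc μ E S (h i)) ∧
  (∀ i j, i ≠ j → ¬ AM μ E (fun x => h i x * conj (h j x))) ∧
  (∑ i, ∫ x, ‖(μ[fun x => conj (h i x) * G x|E]) x‖ ^ 2 ∂μ ≤ ∫ x, ‖G x‖ ^ 2 ∂μ) ∧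
  ∫ x, ‖G x - ∑ i, h i x * (μ[fun x => conj (h i x) * G x|E]) x‖ ^ 2 ∂μ ≤ ε

/-- VFR: free steps. -/
def ST_VFR : Prop := ∀ (Ω : Type) [MeasurableSpace Ω] (μ : Measure Ω) [IsProbabilityMeasure μ]
  (S S' : Ω → Ω) (s E : SA Ω), St μ S S' → IA μ s S S' → Ct μ S s E → Sa μ S E → Ri μ S s →
  Ri μ S (fr μ S E) → Ri μ S E → Vc μ S S' E → Vp μ S S' (fr μ S E)

/-- VAL: the estimate for all stages. -/
def ST_VAL : Prop := ∀ (Ω : Type) [MeasurableSpace Ω] (μ : Measure Ω) [IsProbabilityMeasure μ]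
  (S S' : Ω → Ω) (u : ℕ → Ω → ℂ) (A : ℕ → SA Ω) (N : ℕ), St μ S S' → Tr μ S u A N →
  ∀ s : SA Ω, Sg μ S s → IA μ s S S' ∧ Ri μ S s ∧ Vp μ S S' s

/-! ### Block T: the masses -/

/-- TDV: eigenfunctions are divisible by finitely many primes. -/
def ST_TDV : Prop := ∀ (Ω : Type) [MeasurableSpace Ω] (μ : Measure Ω) [IsProbabilityMeasure μ]
  (S S' : Ω → Ω) (u : ℕ → Ω → ℂ) (A : ℕ → SA Ω) (N : ℕ), St μ S S' → Tr μ S u A N →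
  ∀ ψ, UF μ ψ → Inc μ bo S ψ → ¬ AM μ bo ψ → ∃ q₀ : ℕ, ∀ q ≥ q₀, q.Prime → ¬ Dv μ S q ψ

/-- TCL: the functions with the property form a closed subspace. -/
def ST_TCL : Prop := ∀ (Ω : Type) [MeasurableSpace Ω] (μ : Measure Ω) [IsProbabilityMeasure μ]
  (S S' : Ω → Ω), Sys μ S S' →
  (∀ G G' : Ω → ℂ, TV μ S S' G → G =ᵐ[μ] G' → TV μ S S' G') ∧
  (∀ G G' : Ω → ℂ, MemLp G 2 μ → MemLp G' 2 μ → TV μ S S' G → TV μ S S' G' →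
    TV μ S S' (fun x => G x + G' x)) ∧
  (∀ (c : ℂ) (G : Ω → ℂ), MemLp G 2 μ → TV μ S S' G → TV μ S S' (fun x => c * G x)) ∧
  (∀ c : ℂ, TV μ S S' (fun _ => c)) ∧
  ∀ G : Ω → ℂ, MemLp G 2 μ → (∀ ε : ℝ, 0 < ε → ∃ G' : Ω → ℂ, MemLp G' 2 μ ∧ TV μ S S' G' ∧
    ∫ x, ‖G x - G' x‖ ^ 2 ∂μ ≤ ε) → TV μ S S' G

/-- TEX: functions in an extension are approximated by products. -/
def ST_TEX : Prop := ∀ (Ω : Type) [MeasurableSpace Ω] (μ : Measure Ω) [IsProbabilityMeasure μ]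
  (E : SA Ω) (Φ : Set (Ω → ℂ)) (G : Ω → ℂ) (ε : ℝ), Lm E → Grp μ Φ → MemLp G 2 μ →
  AM μ (jo E (sg Φ)) G → 0 < ε → ∃ (m : ℕ) (φ F : Fin m → Ω → ℂ), (∀ i, φ i ∈ Φ) ∧
  (∀ i, BF (F i) ∧ AM μ E (F i)) ∧ ∫ x, ‖G x - ∑ i, φ i x * F i x‖ ^ 2 ∂μ ≤ ε

/-- TKR: the Kronecker factor. -/
def ST_TKR : Prop := ∀ (Ω : Type) [MeasurableSpace Ω] (μ : Measure Ω) [IsProbabilityMeasure μ]
  (S S' : Ω → Ω) (u : ℕ → Ω → ℂ) (A : ℕ → SA Ω) (N : ℕ), St μ S S' → Tr μ S u A N →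
  ∀ G : Ω → ℂ, MemLp G 2 μ → AM μ (fr μ S bo) G → TV μ S S' G

/-- TKG: the projection on the Kronecker factor respects the classes. -/
def ST_TKG : Prop := ∀ (Ω : Type) [MeasurableSpace Ω] (μ : Measure Ω) [IsProbabilityMeasure μ]
  (S S' : Ω → Ω) (E : SA Ω) (φ G : Ω → ℂ), St μ S S' → IA μ E S S' → UF μ φ → Inc μ E S φ →
  BF G → AM μ E (fun x => conj (φ x) * G x) →
  AM μ E (fun x => conj (φ x) * (μ[G|fr μ S bo]) x)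

/-- TVC: the inequality of van der Corput. -/
def ST_TVC : Prop := ∀ (Ω : Type) [MeasurableSpace Ω] (μ : Measure Ω) [IsProbabilityMeasure μ]
  (S S' : Ω → Ω) (G : Ω → ℂ), St μ S S' → BF G → ∫ x, G x ∂μ = 0 → A0 μ bo S G →
  (∀ m n : ℕ, TV μ S S' (fun x => G (S^[m] x) * conj (G (S^[n] x)))) → TV μ S S' G

/-- TST: one step. -/
def ST_TST : Prop := ∀ (Ω : Type) [MeasurableSpace Ω] (μ : Measure Ω) [IsProbabilityMeasure μ]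
  (S S' : Ω → Ω) (u : ℕ → Ω → ℂ) (A : ℕ → SA Ω) (N k : ℕ), St μ S S' → Tr μ S u A N →
  (∀ G : Ω → ℂ, MemLp G 2 μ → AM μ (A k) G → TV μ S S' G) →
  ∀ G : Ω → ℂ, MemLp G 2 μ → AM μ (A (k + 1)) G → TV μ S S' G

/-! ### Summary -/

/-- MHA: the hull of an ergodic joining. -/
def ST_MHA : Prop := ∀ (Ω : Type) [MeasurableSpace Ω] (μ : Measure Ω) [IsProbabilityMeasure μ]
  (S S' : Ω → Ω) (u : ℕ → Ω → ℂ) (A : ℕ → SA Ω) (N : ℕ), St μ S S' → Tr μ S u A N →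
  ∀ (R₀ k : ℕ) (G : Fin k → Ω → ℂ) (ε : ℝ), 0 < ε → (∀ i, MemLp (G i) 2 μ) →
  ∃ q₀ : ℕ, ∀ q ≥ q₀, q.Prime → ∀ p : ℕ, p.Prime → p ≠ q → ∀ κ : Measure (Ω × Ω),
    JY S μ p q κ → ∃ C : SA Ω, HQ μ S S' p q R₀ C ∧
      (∀ F : Ω → ℂ, Measurable F → MemLp F 2 μ → μ[F|C] =ᵐ[μ] 0 →
        JJY κ F ≤ ε * ∫ x, ‖F x‖ ^ 2 ∂μ) ∧
      ∀ i, ∫ x, ‖(μ[G i|C]) x - ∫ y, G i y ∂μ‖ ^ 2 ∂μ ≤ ε

end Pool.Agent.Helper98.TA
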