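import Pool.Agent.Helper98.TA.Stmts
import Pool.Agent.Helper98.TW.Basic
import Pool.Agent.Helper73.TWR.IAJ
import Pool.Agent.Helper59.TWR.VF2

/-!
Sheet TA (MP_7a8f48_an): shared lemmas.
-/

set_option linter.unusedSectionVars false

open MeasureTheory Filter Topology Finset
open scoped ComplexConjugate

namespace Pool.Agent.Helper98.TA

open Pool.Agent.Helper98.TW
open Pool.Agent.Helper40.TWM (St HQ)
open Pool.Agent.Helper98.GY (JY JJY)

section one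

variable {Ω : Type} [m0 : MeasurableSpace Ω] {μ : Measure Ω} {E E' s D 𝒜 : SA Ω}
  {u φ ψ : Ω → ℂ} {R R' S S' : Ω → Ω}

/-! ### powers -/

theorem zpow_conj_one {z : ℂ} (hz : ‖z‖ = 1) (n : ℤ) : z ^ n * conj (z ^ n) = 1 := by
  rw [Complex.mul_conj, Complex.normSq_eq_norm_sq, norm_zpow, hz]
  simp

theorem conj_zpow {z : ℂ} (hz : ‖z‖ = 1) (n : ℤ) : conj (z ^ n) = z ^ (-n) := by
  have h0 : z ≠ 0 := by
    intro h
    rw [h, norm_zero] at hz
    exact zero_ne_one hz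
  have h1 := zpow_conj_one hz n
  have h2 : z ^ n ≠ 0 := zpow_ne_zero n h0
  rw [zpow_neg]
  exact eq_inv_of_mul_eq_one_right h1

theorem meas_zpow (n : ℤ) : Measurable (fun z : ℂ => z ^ n) := by
  cases n with
  | ofNat n =>
    have : (fun z : ℂ => z ^ (Int.ofNat n)) = fun z => z ^ n := by
      funext z
      exact zpow_natCast z n
    rw [this]
    exact measurable_id.pow_const n
  | negSucc n =>
    have : (fun z : ℂ => z ^ (Int.negSucc n)) = fun z => (z ^ (n + 1))⁻¹ := by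
      funext z
      exact zpow_negSucc z n
    rw [this]
    exact (measurable_id.pow_const (n + 1)).inv

theorem uf_zpow (hu : UF μ u) (n : ℤ) : UF μ (fun x => u x ^ n) := by
  refine ⟨(meas_zpow n).comp hu.1, ?_⟩
  · filter_upwards [hu.2] with x hx
    rw [norm_zpow, hx, one_zpow]

theorem ne_zero_of_uf (hu : UF μ u) : ∀ᵐ x ∂μ, u x ≠ 0 := by
  filter_upwards [hu.2] with x hx h
  rw [h, norm_zero] at hx
  exact zero_ne_one hx

theorem am_zpow (hu : AM μ E u) (n : ℤ) : AM μ E (fun x => u x ^ n) := by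
  exact am_cont (φ := fun z : ℂ => z ^ n) (meas_zpow n) hu

/-! ### increments -/

theorem inc_of_am (hE : IA μ E R R') (h : AM μ E ψ) : Inc μ E R ψ :=
  am_mul (hE.2 _ h).1 (am_conj h)

theorem inc_mono (hq : LQ μ E E') (h : Inc μ E R ψ) : Inc μ E' R ψ := hq _ h

theorem inc_mul (h : Inc μ E R φ) (h' : Inc μ E R ψ) : Inc μ E R (fun x => φ x * ψ x) := by
  refine am_congr (am_mul h h') (Eventually.of_forall fun x => ?_)
  simp only [map_mul]
  ring

theorem inc_conj (h : Inc μ E R φ) : Inc μ E R (fun x => conj (φ x)) := by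
  refine am_congr (am_conj h) (Eventually.of_forall fun x => ?_)
  simp only [map_mul]

theorem inc_pow (h : Inc μ E R φ) (n : ℕ) : Inc μ E R (fun x => φ x ^ n) := by
  refine am_congr (am_pow h n) (Eventually.of_forall fun x => ?_)
  simp only [mul_pow, map_pow]

theorem inc_zpow (h : Inc μ E R φ) (n : ℤ) : Inc μ E R (fun x => φ x ^ n) := by
  refine am_congr (am_zpow h n) (Eventually.of_forall fun x => ?_)
  simp only [mul_zpow, map_zpow₀]

theorem inc_one : Inc μ E R (fun _ => (1 : ℂ)) := by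
  refine am_congr (am_const 1) (Eventually.of_forall fun x => ?_)
  simp

/-- increments for the powers of the transformation -/
theorem inc_iter (hA : IA μ E R R') (hR : Sys μ R R') (hψ : UF μ ψ) (h : Inc μ E R ψ) (n : ℕ) :
    Inc μ E R^[n] ψ := Pool.Agent.Helper59.TWR.inc_iterate hA hR.mp hψ h n

/-! ### the groups -/

theorem grp_Ga : Grp μ (Ga μ S E) where
  uf := fun _ h => h.1
  one := ⟨uf_one, inc_one⟩
  mul := fun _ h _ h' => ⟨h.1.mul h'.1, inc_mul h.2 h'.2⟩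
  inv := fun _ h => ⟨h.1.conj, inc_conj h.2⟩

theorem grp_Pw (hu : UF μ u) : Grp μ (Pw μ E u) where
  uf := fun _ h => h.1
  one := by
    refine ⟨uf_one, 0, am_congr (am_const 1) (Eventually.of_forall fun x => ?_)⟩
    simp
  mul := by
    rintro φ ⟨hφ, n, hn⟩ ψ ⟨hψ, m, hm⟩
    refine ⟨hφ.mul hψ, n + m, am_congr (am_mul hn hm) ?_⟩
    filter_upwards [ne_zero_of_uf hu] with x hx
    rw [zpow_add₀ hx, map_mul]
    ring
  inv := by
    rintro φ ⟨hφ, n, hn⟩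
    refine ⟨hφ.conj, -n, am_congr (am_conj hn) ?_⟩
    filter_upwards [hu.2] with x hx
    rw [← conj_zpow hx n, map_mul]

theorem inc_Pw (hE : IA μ E R R') (hR : Sys μ R R') (hu : UF μ u) (h : Inc μ E R u) :
    ∀ φ ∈ Pw μ E u, Inc μ E R φ := by
  rintro φ ⟨hφ, n, hn⟩
  have h1 : Inc μ E R (fun x => (φ x * conj (u x ^ n)) * u x ^ n) :=
    inc_mul (inc_of_am hE hn) (inc_zpow h n)
  refine am_congr h1 ?_
  filter_upwards [hu.2, ae_comp hR.mp hu.2] with x hx hx'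
  have e1 := zpow_conj_one hx n
  have e2 := zpow_conj_one hx' n
  simp only [map_mul, Complex.conj_conj]
  linear_combination (φ (R x) * conj (φ x)) * ((u (R x) ^ n * conj (u (R x) ^ n)) * e1 + e2)

theorem mem_Pw_self (hu : UF μ u) : u ∈ Pw μ E u := by
  refine ⟨hu, 1, am_congr (am_const 1) ?_⟩
  filter_upwards [hu.mul_conj] with x hx
  rw [zpow_one, hx]

theorem mem_Pw_zpow (hu : UF μ u) (n : ℤ) : (fun x => u x ^ n) ∈ Pw μ E u := by
  refine ⟨uf_zpow hu n, n, am_congr (am_const 1) ?_⟩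
  filter_upwards [hu.2] with x hx
  rw [zpow_conj_one hx]

theorem mem_Pw_of_am (hφ : UF μ φ) (h : AM μ E φ) : φ ∈ Pw μ E u := by
  refine ⟨hφ, 0, am_congr h (Eventually.of_forall fun x => ?_)⟩
  simp

/-! ### the extensions -/

theorem le_ad : @LE.le (MeasurableSpace Ω) _ E (ad μ E u) := le_jo_left

theorem le_fr : @LE.le (MeasurableSpace Ω) _ E (fr μ S E) := le_jo_left

theorem lq_ad : LQ μ E (ad μ E u) := lq_of_le le_ad

theorem lq_fr : LQ μ E (fr μ S E) := lq_of_le le_fr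

theorem am_ad_mem (h : φ ∈ Pw μ E u) : AM μ (ad μ E u) φ := am_jo_right (am_sg h)

theorem am_ad_u (hu : UF μ u) : AM μ (ad μ E u) u := am_ad_mem (mem_Pw_self hu)

theorem am_fr (h : UF μ φ) (h' : Inc μ E S φ) : AM μ (fr μ S E) φ :=
  am_jo_right (am_sg (Φ := Ga μ S E) ⟨h, h'⟩)

theorem ia_ad (hR : Sys μ R R') (hE : IA μ E R R') (hu : UF μ u) (h : Inc μ E R u) :
    IA μ (ad μ E u) R R' :=
  Pool.Agent.Helper73.TWR.ia_sg hR hE (grp_Pw hu) (inc_Pw hE hR hu h)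

theorem ia_fr (hS : Sys μ S S') (hE : IA μ E S S') : IA μ (fr μ S E) S S' :=
  Pool.Agent.Helper73.TWR.ia_sg hS hE grp_Ga fun _ h => h.2

theorem ia_jo (hR : Sys μ R R') (hE : IA μ E R R') (hE' : IA μ E' R R') :
    IA μ (jo E E') R R' := Pool.Agent.Helper73.TWR.ia_jo hR hE hE'

theorem ia_sg (hR : Sys μ R R') {Φ : Set (Ω → ℂ)} (hE : IA μ E R R') (hΦ : Grp μ Φ)
    (h : ∀ φ ∈ Φ, Inc μ E R φ) : IA μ (jo E (sg Φ)) R R' :=
  Pool.Agent.Helper73.TWR.ia_sg hR hE hΦ h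

theorem jo_assoc {𝒜 ℬ 𝒞 : SA Ω} : jo (jo 𝒜 ℬ) 𝒞 = jo 𝒜 (jo ℬ 𝒞) :=
  sup_assoc (α := MeasurableSpace Ω) 𝒜 ℬ 𝒞

theorem jo_comm {𝒜 ℬ : SA Ω} : jo 𝒜 ℬ = jo ℬ 𝒜 := sup_comm (α := MeasurableSpace Ω) 𝒜 ℬ

theorem jo_bo {𝒜 : SA Ω} : jo 𝒜 bo = 𝒜 := sup_bot_eq (α := MeasurableSpace Ω) 𝒜

theorem jo_mono {𝒜 ℬ 𝒞 𝒟 : SA Ω} (h : @LE.le (MeasurableSpace Ω) _ 𝒜 ℬ)
    (h' : @LE.le (MeasurableSpace Ω) _ 𝒞 𝒟) :
    @LE.le (MeasurableSpace Ω) _ (jo 𝒜 𝒞) (jo ℬ 𝒟) := sup_le_sup (α := MeasurableSpace Ω) h h'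

/-- the structure of functions with increments in an extension by one function -/
theorem lt_Pw [IsProbabilityMeasure μ] (hLT : ST_LT) (hR : Sys μ R R') (he : Ergodic R μ)
    (hA : IA μ 𝒜 R R') (hEA : LQ μ E 𝒜) (hE : IA μ E R R') (hu : UF μ u) (hi : Inc μ E R u)
    (hψ : UF μ ψ) (hm : AM μ (jo 𝒜 (sg (Pw μ E u))) ψ) (h : Inc μ 𝒜 R ψ) :
    ∃ n : ℤ, AM μ 𝒜 (fun x => ψ x * conj (u x ^ n)) := by
  obtain ⟨φ, hφ, h1⟩ := hLT Ω μ R R' 𝒜 (Pw μ E u) ψ hR he hA (grp_Pw hu)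
    (fun φ hφ => inc_mono hEA (inc_Pw hE hR hu hi φ hφ)) hψ hm h
  obtain ⟨hφu, n, hn⟩ := hφ
  refine ⟨n, am_congr (am_mul h1 (hEA _ hn)) ?_⟩
  filter_upwards [hφu.conj_mul] with x hx
  linear_combination (ψ x * conj (u x ^ n)) * hx

/-! ### chains -/

theorem Tr.ia {u : ℕ → Ω → ℂ} {A : ℕ → SA Ω} {N : ℕ} (h : Tr μ S u A N) (hS : Sys μ S S')
    (k : ℕ) : IA μ (A k) S S' := by
  induction k with
  | zero => rw [h.zero]; exact ia_bo hS
  | succ k ih => rw [h.succ]; exact ia_ad hS ih (h.uf k) (h.inc k)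

theorem Ct.ia (h : Ct μ S s E) (hS : Sys μ S S') (hs : IA μ s S S') : IA μ E S S' := by
  induction h with
  | refl => exact hs
  | step E τ M _ hτ hi _ _ ih => exact ia_ad hS ih hτ hi

theorem Ct.le (h : Ct μ S s E) : @LE.le (MeasurableSpace Ω) _ s E := by
  induction h with
  | refl => exact le_refl (α := MeasurableSpace Ω) _
  | step E τ M _ hτ hi _ _ ih => exact le_trans (α := MeasurableSpace Ω) ih le_ad

theorem Sg.ia (h : Sg μ S s) (hS : Sys μ S S') : IA μ s S S' := by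
  induction h with
  | zero => exact ia_bo hS
  | succ s E _ hc _ ih => exact ia_fr hS (hc.ia hS ih)

theorem St.s1 (h : St μ S S') : Sys μ S S' := by simpa using h.sys 1

theorem St.e1 (h : St μ S S') : Ergodic S μ := by simpa using h.erg 1 le_rfl

end one

/-! ### joinings -/

section two

variable {Ω : Type} [m0 : MeasurableSpace Ω] {μ : Measure Ω} {S S' : Ω → Ω} {p q : ℕ}
  {κ : Measure (Ω × Ω)} {E E' : SA Ω} {ψ : Ω → ℂ}

theorem jy_mp1 (h : JY S μ p q κ) : MeasurePreserving (Prod.fst : Ω × Ω → Ω) κ μ :=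
  ⟨measurable_fst, h.fst⟩

theorem jy_mp2 (h : JY S μ p q κ) : MeasurePreserving (Prod.snd : Ω × Ω → Ω) κ μ :=
  ⟨measurable_snd, h.snd⟩

/-- the system of a joining -/
theorem sys_jy (hS : Sys μ S S') (h : JY S μ p q κ) :
    Sys κ (Prod.map S^[p] S^[q]) (Prod.map S'^[p] S'^[q]) := by
  have hp := hS.iterate p
  have hq := hS.iterate q
  have hmp := h.erg.toMeasurePreserving
  have hl : ∀ᵐ z ∂κ, Prod.map S'^[p] S'^[q] (Prod.map S^[p] S^[q] z) = z := by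
    filter_upwards [(jy_mp1 h).quasiMeasurePreserving.ae hp.l,
      (jy_mp2 h).quasiMeasurePreserving.ae hq.l] with z h1 h2
    exact Prod.ext h1 h2
  have hr : ∀ᵐ z ∂κ, Prod.map S^[p] S^[q] (Prod.map S'^[p] S'^[q] z) = z := by
    filter_upwards [(jy_mp1 h).quasiMeasurePreserving.ae hp.r,
      (jy_mp2 h).quasiMeasurePreserving.ae hq.r] with z h1 h2
    exact Prod.ext h1 h2
  have hM' : Measurable (Prod.map S'^[p] S'^[q]) := hp.mp'.measurable.prodMap hq.mp'.measurable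
  refine ⟨hmp, ⟨hM', ?_⟩, hl, hr⟩
  have h1 : Measure.map (Prod.map S'^[p] S'^[q])
      (Measure.map (Prod.map S^[p] S^[q]) κ) = κ := by
    rw [Measure.map_map hM' hmp.measurable]
    have : (Prod.map S'^[p] S'^[q]) ∘ (Prod.map S^[p] S^[q]) =ᵐ[κ] id := hl
    rw [Measure.map_congr this, Measure.map_id]
  rwa [hmp.map_eq] at h1

variable [IsProbabilityMeasure μ]

theorem ia_J1 (hS : Sys μ S S') (h : JY S μ p q κ) (hE : IA μ E S S') :
    IA κ (J1 E) (Prod.map S^[p] S^[q]) (Prod.map S'^[p] S'^[q]) := by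
  have hP : IsProbabilityMeasure κ := h.prob
  have hs := sys_jy hS h
  exact Pool.Agent.Helper59.TWR.ia_cm (jy_mp1 h) (S := S^[p]) (S' := S'^[p]) (fun _ => rfl)
    (fun _ => rfl) hs.mp hs.mp' (hE.iterate p)

theorem ia_J2 (hS : Sys μ S S') (h : JY S μ p q κ) (hE : IA μ E S S') :
    IA κ (J2 E) (Prod.map S^[p] S^[q]) (Prod.map S'^[p] S'^[q]) := by
  have hP : IsProbabilityMeasure κ := h.prob
  have hs := sys_jy hS h
  exact Pool.Agent.Helper59.TWR.ia_cm (jy_mp2 h) (S := S^[q]) (S' := S'^[q]) (fun _ => rfl)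
    (fun _ => rfl) hs.mp hs.mp' (hE.iterate q)

theorem ia_top (hS : Sys μ S S') : IA μ (inferInstance : MeasurableSpace Ω) S S' := by
  refine ⟨le_refl (α := MeasurableSpace Ω) _, fun f hf => ⟨?_, ?_⟩⟩
  · exact AEStronglyMeasurable.comp_measurePreserving (g := f) hf hS.mp
  · exact AEStronglyMeasurable.comp_measurePreserving (g := f) hf hS.mp'

theorem ia_B2 (hS : Sys μ S S') (h : JY S μ p q κ) :
    IA κ (B2 Ω) (Prod.map S^[p] S^[q]) (Prod.map S'^[p] S'^[q]) := ia_J2 hS h (ia_top hS)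

omit [IsProbabilityMeasure μ] in
theorem J1_mono (h : @LE.le (MeasurableSpace Ω) _ E E') :
    @LE.le (MeasurableSpace (Ω × Ω)) _ (J1 E) (J1 E') := MeasurableSpace.comap_mono h

omit [IsProbabilityMeasure μ] in
theorem J2_mono (h : @LE.le (MeasurableSpace Ω) _ E E') :
    @LE.le (MeasurableSpace (Ω × Ω)) _ (J2 E) (J2 E') := MeasurableSpace.comap_mono h

omit [IsProbabilityMeasure μ] in
theorem J2_le_B2 (h : Lm E) : @LE.le (MeasurableSpace (Ω × Ω)) _ (J2 E) (B2 Ω) := J2_mono h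

omit [IsProbabilityMeasure μ] in
theorem lm_J1 (h : Lm E) : Lm (J1 E) := lm_cm measurable_fst h

omit [IsProbabilityMeasure μ] in
theorem lm_J2 (h : Lm E) : Lm (J2 E) := lm_cm measurable_snd h

omit [IsProbabilityMeasure μ] in
theorem lm_B2 : Lm (B2 Ω) := lm_cm measurable_snd (le_refl (α := MeasurableSpace Ω) _)

theorem lq_J1 (h : JY S μ p q κ) (hE : Lm E) (hq : LQ μ E E') : LQ κ (J1 E) (J1 E') := by
  have hP : IsProbabilityMeasure κ := h.prob
  exact Pool.Agent.Helper59.TWR.lq_cm (jy_mp1 h) hE hq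

theorem lq_J2 (h : JY S μ p q κ) (hE : Lm E) (hq : LQ μ E E') : LQ κ (J2 E) (J2 E') := by
  have hP : IsProbabilityMeasure κ := h.prob
  exact Pool.Agent.Helper59.TWR.lq_cm (jy_mp2 h) hE hq

theorem am_J1 (hPFC : ST_PFC) (h : JY S μ p q κ) (hE : Lm E) {F : Ω → ℂ}
    (hF : AEStronglyMeasurable F μ) : AM κ (J1 E) (fun z => F z.1) ↔ AM μ E F := by
  have hP : IsProbabilityMeasure κ := h.prob
  exact (hPFC (Ω × Ω) Ω κ μ Prod.fst E (jy_mp1 h) hE).2.1 F hF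

theorem am_J2 (hPFC : ST_PFC) (h : JY S μ p q κ) (hE : Lm E) {F : Ω → ℂ}
    (hF : AEStronglyMeasurable F μ) : AM κ (J2 E) (fun z => F z.2) ↔ AM μ E F := by
  have hP : IsProbabilityMeasure κ := h.prob
  exact (hPFC (Ω × Ω) Ω κ μ Prod.snd E (jy_mp2 h) hE).2.1 F hF

theorem ce_J1 (hPFC : ST_PFC) (h : JY S μ p q κ) (hE : Lm E) {F : Ω → ℂ}
    (hF : Integrable F μ) : κ[fun z => F z.1|J1 E] =ᵐ[κ] fun z => (μ[F|E]) z.1 := by
  have hP : IsProbabilityMeasure κ := h.prob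
  exact (hPFC (Ω × Ω) Ω κ μ Prod.fst E (jy_mp1 h) hE).1 F hF

theorem ce_J2 (hPFC : ST_PFC) (h : JY S μ p q κ) (hE : Lm E) {F : Ω → ℂ}
    (hF : Integrable F μ) : κ[fun z => F z.2|J2 E] =ᵐ[κ] fun z => (μ[F|E]) z.2 := by
  have hP : IsProbabilityMeasure κ := h.prob
  exact (hPFC (Ω × Ω) Ω κ μ Prod.snd E (jy_mp2 h) hE).1 F hF

theorem uf_J1 (h : JY S μ p q κ) (hψ : UF μ ψ) : UF κ (fun z => ψ z.1) := hψ.comp (jy_mp1 h)

theorem uf_J2 (h : JY S μ p q κ) (hψ : UF μ ψ) : UF κ (fun z => ψ z.2) := hψ.comp (jy_mp2 h)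

theorem inc_J1 (hPFC : ST_PFC) (hS : Sys μ S S') (h : JY S μ p q κ) (hE : Lm E)
    (hψ : UF μ ψ) (hi : Inc μ E S^[p] ψ) :
    Inc κ (J1 E) (Prod.map S^[p] S^[q]) (fun z => ψ z.1) := by
  refine (am_J1 hPFC h hE (F := fun x => ψ (S^[p] x) * conj (ψ x)) ?_).2 hi
  exact ((hψ.1.comp (hS.iterate p).mp.measurable).mul
    (Complex.continuous_conj.measurable.comp hψ.1)).aestronglyMeasurable

theorem inc_J2 (hPFC : ST_PFC) (hS : Sys μ S S') (h : JY S μ p q κ) (hE : Lm E)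
    (hψ : UF μ ψ) (hi : Inc μ E S^[q] ψ) :
    Inc κ (J2 E) (Prod.map S^[p] S^[q]) (fun z => ψ z.2) := by
  refine (am_J2 hPFC h hE (F := fun x => ψ (S^[q] x) * conj (ψ x)) ?_).2 hi
  exact ((hψ.1.comp (hS.iterate q).mp.measurable).mul
    (Complex.continuous_conj.measurable.comp hψ.1)).aestronglyMeasurable

/-- the functions of a group as functions of one coordinate -/
theorem grp_comp {Ω' : Type} [MeasurableSpace Ω'] {μ' : Measure Ω'} {π : Ω' → Ω}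
    (hπ : MeasurePreserving π μ' μ) {Φ : Set (Ω → ℂ)} (h : Grp μ Φ) :
    Grp μ' {ψ | ∃ φ ∈ Φ, ψ = fun z => φ (π z)} where
  uf := by
    rintro ψ ⟨φ, hφ, rfl⟩
    exact (h.uf φ hφ).comp hπ
  one := ⟨_, h.one, rfl⟩
  mul := by
    rintro ψ ⟨φ, hφ, rfl⟩ ψ' ⟨φ', hφ', rfl⟩
    exact ⟨_, h.mul φ hφ φ' hφ', rfl⟩
  inv := by
    rintro ψ ⟨φ, hφ, rfl⟩
    exact ⟨_, h.inv φ hφ, rfl⟩

omit [IsProbabilityMeasure μ] in
/-- inverse images of extensions -/
theorem cm_sg {Ω' : Type} (π : Ω' → Ω) (E : SA Ω) (Φ : Set (Ω → ℂ)) :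
    cm π (jo E (sg Φ)) = jo (cm π E) (sg {ψ | ∃ φ ∈ Φ, ψ = fun z => φ (π z)}) := by
  show MeasurableSpace.comap π ((E : MeasurableSpace Ω) ⊔
      (⨆ φ ∈ Φ, MeasurableSpace.comap φ (inferInstance : MeasurableSpace ℂ))) =
    (MeasurableSpace.comap π E) ⊔ (⨆ ψ ∈ {ψ | ∃ φ ∈ Φ, ψ = fun z => φ (π z)},
      MeasurableSpace.comap ψ (inferInstance : MeasurableSpace ℂ))
  rw [MeasurableSpace.comap_sup]
  congr 1
  rw [MeasurableSpace.comap_iSup]
  apply le_antisymm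
  · refine iSup_le fun φ => ?_
    rw [MeasurableSpace.comap_iSup]
    refine iSup_le fun hφ => ?_
    rw [MeasurableSpace.comap_comp]
    exact le_iSup₂_of_le (fun z => φ (π z)) ⟨φ, hφ, rfl⟩ le_rfl
  · refine iSup₂_le ?_
    rintro ψ ⟨φ, hφ, rfl⟩
    refine le_iSup_of_le φ ?_
    rw [MeasurableSpace.comap_iSup]
    refine le_iSup_of_le hφ ?_
    rw [MeasurableSpace.comap_comp]
    exact le_rfl

end two

end Pool.Agent.Helper98.TA
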