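import Pool.Agent.Helper98.TA.Stmts

/-!
Iterated extensions by compact abelian Lie groups (MP_7a8f48_an): further statements of the
sheet TA, and the statements of the sheet GY for these systems.
-/

open MeasureTheory Filter Topology Finset
open scoped ComplexConjugate

namespace Pool.Agent.Helper98.TA

open Pool.Agent.Helper98.TW (SA jo bo cm AM UF BF Sys Lm IA LQ Inc sg Grp SM Sat al)
open Pool.Agent.Helper16.AZ (T E Op mm)
open Pool.Agent.Helper16.BZ (co Wk EE ff EQ)
open Pool.Agent.Helper40.JZ (LM)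
open Pool.Agent.Helper40.TWM (HQ St NK NC)
open Pool.Agent.Helper98.GY (JY JJY aHY UR RI Good)

/-- RCI: relative independence over larger algebras (weak union). -/
def ST_RCI : Prop := ∀ (Ω : Type) [MeasurableSpace Ω] (μ : Measure Ω) [IsProbabilityMeasure μ]
  (S S' : Ω → Ω) (s E : SA Ω) (p q : ℕ) (κ : Measure (Ω × Ω)), St μ S S' → IA μ s S S' →
  IA μ E S S' → LQ μ s E → Ri μ S s → 1 ≤ p → 1 ≤ q → JY S μ p q κ →
  ∀ F : Ω → ℂ, BF F →
    κ[fun z => F z.1|jo (J1 E) (J2 s)] =ᵐ[κ] κ[fun z => F z.1|J1 E]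

/-- `(Y, ν, S)` is totally ergodic and an iterated extension by compact abelian Lie groups:
there are finitely many unimodular functions which generate the sigma algebra, and the increments
of every function are measurable for the sigma algebra of the previous functions -/
def Md {Y : Type} [MeasurableSpace Y] (S : Y → Y) (ν : Measure Y) : Prop :=
  (∀ m : ℕ, 1 ≤ m → Ergodic S^[m] ν) ∧
  ∃ (u : ℕ → Y → ℂ) (A : ℕ → SA Y) (N : ℕ), Tr ν S u A N

/-- MLB: ergodic joinings of the powers (GY.MLA for these systems). -/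
def ST_MLB : Prop := ∀ (Y : Type) [MetricSpace Y] [CompactSpace Y] [MeasurableSpace Y]
  [BorelSpace Y] (ν : Measure Y) [IsProbabilityMeasure ν] (S : Y ≃ₜ Y),
  MeasurePreserving S ν ν → Md (S : Y → Y) ν → ∀ (d : ℕ) (φ : Y → Op d) (c : Y → E d),
  UR ν φ → Continuous c → ∀ ε : ℝ, 0 < ε → ∃ P₀ : ℕ, ∀ p ≥ P₀, p.Prime → ∀ q ≥ P₀, q.Prime →
  p ≠ q → ∀ κ : Measure (Y × Y), JY (S : Y → Y) ν p q κ → ∀ᶠ H : ℕ in atTop,
    aHY (S : Y → Y) φ c p q κ H ≤ √(LM (NK ν (S : Y → Y) φ c) p) *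
      √(LM (NK ν (S : Y → Y) φ c) q) + ε

/-- GDB: the theorem for the models (GY.GDY for these systems). -/
def ST_GDB : Prop := ∀ (Y : Type) [MetricSpace Y] [CompactSpace Y] [MeasurableSpace Y]
  [BorelSpace Y] (ν : Measure Y) [IsProbabilityMeasure ν] (S : Y ≃ₜ Y),
  MeasurePreserving S ν ν → Md (S : Y → Y) ν →
  (∀ ν' : Measure Y, IsProbabilityMeasure ν' → MeasurePreserving S ν' ν' → ν' = ν) →
  Good (S : Y → Y) ν ∧ EQ (S : Y → Y) ν

/-- TWT: ergodic towers of torus extensions are systems of this kind. -/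
def ST_TWT : Prop := ∀ (N : ℕ) (lev : Fin N → ℕ)
  (f : Fin N → T N → UnitAddCircle), Pool.Agent.Helper98.TW.Tow lev f →
  Ergodic (Pool.Agent.Helper98.TW.SS f) (mm N) → Md (Pool.Agent.Helper98.TW.SS f) (mm N)

end Pool.Agent.Helper98.TA
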