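import Pool.Agent.Helper98.TA.Basic
import Pool.Agent.Helper40.TA.Meet

/-!
Sheet TA (MP_7a8f48_an), row BMT: the intersection of two sigma algebras.
-/

set_option linter.unusedSectionVars false

open MeasureTheory Filter Topology Finset
open scoped ComplexConjugate

namespace Pool.Agent.Helper98.TA

open Pool.Agent.Helper98.TW
open Pool.Agent.Helper40.TWM (St HQ)

theorem st_BMT : ST_BMT := by
  intro Ω m0 μ _ S S' D E hS hD hE
  have hl : Lm (mt μ D E) := lm_sg fun _ h => h.1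
  have h1 : ∀ f : Ω → ℂ, AM μ (mt μ D E) f → AM μ (Pool.Agent.Helper40.TA.mt μ D E) f := by
    refine lq_sg fun f hf => ?_
    exact (Pool.Agent.Helper40.TA.am_mt hD).2 ⟨hf.2.1, hf.2.2⟩
  have h2 : ∀ f : Ω → ℂ, AM μ (mt μ D E) f ↔ AM μ D f ∧ AM μ E f := by
    intro f
    constructor
    · exact fun hf => (Pool.Agent.Helper40.TA.am_mt hD).1 (h1 f hf)
    · rintro ⟨ha, hb⟩
      obtain ⟨g, hg, hfg⟩ := am_iff.1 ha
      have hgm : Measurable g := fun s hs => hD _ (hg hs)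
      refine am_congr (am_sg (Φ := {f | Measurable f ∧ AM μ D f ∧ AM μ E f}) (φ := g)
        ⟨hgm, am_congr ha hfg, am_congr hb hfg⟩) hfg.symm
  refine ⟨hl, h2, fun h3 h4 => ⟨hl, fun f hf => ?_⟩⟩
  obtain ⟨ha, hb⟩ := (h2 f).1 hf
  exact ⟨(h2 _).2 ⟨(h3.2 f ha).1, (h4.2 f hb).1⟩, (h2 _).2 ⟨(h3.2 f ha).2, (h4.2 f hb).2⟩⟩

end Pool.Agent.Helper98.TA
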