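import Pool.Agent.Helper98.TA.VAL

/-!
Sheet TA (MP_7a8f48_an), row MHA: the summary.
-/

set_option linter.unusedSectionVars false

open MeasureTheory Filter Topology Finset
open scoped ComplexConjugate

namespace Pool.Agent.Helper98.TA

open Pool.Agent.Helper98.TW
open Pool.Agent.Helper40.TWM (St HQ)
open Pool.Agent.Helper98.GY (JY JJY)
open Pool.Agent.Helper73.TWR

section jj

variable {Ω : Type} [m0 : MeasurableSpace Ω] {μ : Measure Ω} [IsProbabilityMeasure μ]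
  {S S' : Ω → Ω} {p q : ℕ} {κ : Measure (Ω × Ω)} {D E s : SA Ω} {F G : Ω → ℂ}

theorem JJY_le (h : JY S μ p q κ) (hF : MemLp F 2 μ) : JJY κ F ≤ ∫ x, ‖F x‖ ^ 2 ∂μ := by
  have hP : IsProbabilityMeasure κ := h.prob
  have h1 : MemLp (fun z : Ω × Ω => F z.1) 2 κ := hF.comp_measurePreserving (jy_mp1 h)
  have h2 := ce_sq_le (𝒜 := B2 Ω) h1
  refine h2.trans (le_of_eq ?_)
  have h3 : AEStronglyMeasurable (fun x => ‖F x‖ ^ 2) (κ.map Prod.fst) := by
    rw [h.fst]; exact hF.1.norm.pow 2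
  rw [← h.fst, integral_map (jy_mp1 h).measurable.aemeasurable h3]

theorem JJY_add_le (h : JY S μ p q κ) (hF : MemLp F 2 μ) (hG : MemLp G 2 μ) :
    JJY κ (fun x => F x + G x) ≤ 2 * JJY κ F + 2 * JJY κ G := by
  have hP : IsProbabilityMeasure κ := h.prob
  have h1 : MemLp (fun z : Ω × Ω => F z.1) 2 κ := hF.comp_measurePreserving (jy_mp1 h)
  have h2 : MemLp (fun z : Ω × Ω => G z.1) 2 κ := hG.comp_measurePreserving (jy_mp1 h)
  have h3 := ce_add (𝒜 := B2 Ω) (h1.integrable (by norm_num)) (h2.integrable (by norm_num))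
  have e1 : MemLp (κ[fun z : Ω × Ω => F z.1|B2 Ω]) 2 κ := ce_memLp h1
  have e2 : MemLp (κ[fun z : Ω × Ω => G z.1|B2 Ω]) 2 κ := ce_memLp h2
  have i1 : Integrable (fun z => ‖(κ[fun z : Ω × Ω => F z.1|B2 Ω]) z‖ ^ 2) κ :=
    e1.integrable_norm_pow (by norm_num)
  have i2 : Integrable (fun z => ‖(κ[fun z : Ω × Ω => G z.1|B2 Ω]) z‖ ^ 2) κ :=
    e2.integrable_norm_pow (by norm_num)
  show ∫ z, ‖(κ[fun z : Ω × Ω => F z.1 + G z.1|B2 Ω]) z‖ ^ 2 ∂κ ≤
    2 * ∫ z, ‖(κ[fun z : Ω × Ω => F z.1|B2 Ω]) z‖ ^ 2 ∂κ +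
      2 * ∫ z, ‖(κ[fun z : Ω × Ω => G z.1|B2 Ω]) z‖ ^ 2 ∂κ
  rw [← integral_const_mul, ← integral_const_mul, ← integral_add (i1.const_mul 2)
    (i2.const_mul 2)]
  refine integral_mono_of_nonneg (Eventually.of_forall fun z => by positivity)
    ((i1.const_mul 2).add (i2.const_mul 2)) ?_
  filter_upwards [h3] with z hz
  rw [hz]
  have h5 := norm_add_le ((κ[fun z : Ω × Ω => F z.1|B2 Ω]) z)
    ((κ[fun z : Ω × Ω => G z.1|B2 Ω]) z)
  nlinarith [norm_nonneg ((κ[fun z : Ω × Ω => F z.1|B2 Ω]) z),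
    norm_nonneg ((κ[fun z : Ω × Ω => G z.1|B2 Ω]) z),
    norm_nonneg ((κ[fun z : Ω × Ω => F z.1|B2 Ω]) z +
      (κ[fun z : Ω × Ω => G z.1|B2 Ω]) z),
    sq_nonneg (‖(κ[fun z : Ω × Ω => F z.1|B2 Ω]) z‖ -
      ‖(κ[fun z : Ω × Ω => G z.1|B2 Ω]) z‖)]

/-- bounded approximations -/
theorem exists_bf_near (hm : Measurable F) (hF : MemLp F 2 μ) {η : ℝ} (hη : 0 < η) :
    ∃ G : Ω → ℂ, BF G ∧ ∫ x, ‖F x - G x‖ ^ 2 ∂μ ≤ η := by
  classical
  set T : ℕ → Ω → ℂ := fun k x => if ‖F x‖ ≤ k then F x else 0 with hT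
  have hTm : ∀ k, Measurable (T k) := fun k =>
    Measurable.ite (measurableSet_le hm.norm measurable_const) hm measurable_const
  have hlim : Tendsto (fun k => ∫ x, ‖F x - T k x‖ ^ 2 ∂μ) atTop (𝓝 (∫ x, (0 : ℝ) ∂μ)) := by
    refine tendsto_integral_of_dominated_convergence (fun x => ‖F x‖ ^ 2) (fun k => ?_)
      (hF.integrable_norm_pow (by norm_num)) (fun k => Eventually.of_forall fun x => ?_)
      (Eventually.of_forall fun x => ?_)
    · exact ((hm.sub (hTm k)).norm.pow_const 2).aestronglyMeasurable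
    · simp only [hT]
      rw [norm_pow, norm_norm]
      split_ifs
      · simp
      · simp
    · refine tendsto_const_nhds.congr' ?_
      obtain ⟨k, hk⟩ := exists_nat_ge ‖F x‖
      filter_upwards [eventually_ge_atTop k] with m hmk
      have : ‖F x‖ ≤ m := hk.trans (by exact_mod_cast hmk)
      simp [hT, this]
  rw [integral_zero] at hlim
  obtain ⟨k, hk⟩ := ((tendsto_order.1 hlim).2 η hη).exists
  refine ⟨T k, ⟨hTm k, k, fun x => ?_⟩, hk.le⟩
  simp only [hT]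
  split_ifs with h
  · exact h
  · simp

/-- the norm of a difference -/
theorem sq_add_le (hF : MemLp F 2 μ) (hG : MemLp G 2 μ) :
    ∫ x, ‖F x + G x‖ ^ 2 ∂μ ≤ 2 * ∫ x, ‖F x‖ ^ 2 ∂μ + 2 * ∫ x, ‖G x‖ ^ 2 ∂μ := by
  have i1 : Integrable (fun x => ‖F x‖ ^ 2) μ := hF.integrable_norm_pow (by norm_num)
  have i2 : Integrable (fun x => ‖G x‖ ^ 2) μ := hG.integrable_norm_pow (by norm_num)
  rw [← integral_const_mul, ← integral_const_mul, ← integral_add (i1.const_mul 2)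
    (i2.const_mul 2)]
  refine integral_mono_of_nonneg (Eventually.of_forall fun z => by positivity)
    ((i1.const_mul 2).add (i2.const_mul 2)) (Eventually.of_forall fun x => ?_)
  have h5 := norm_add_le (F x) (G x)
  simp only
  nlinarith [norm_nonneg (F x), norm_nonneg (G x), norm_nonneg (F x + G x),
    sq_nonneg (‖F x‖ - ‖G x‖)]

/-- from bounded functions to square integrable functions -/
theorem v_memLp (hD : Lm D) (hsD : ∀ f : Ω → ℂ, Measurable f → AM μ s f)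
    (hq : LQ μ (mt μ D s) D) (hκ : JY S μ p q κ) {ε : ℝ} (hε : 0 ≤ ε)
    (h : ∀ G : Ω → ℂ, BF G → AM μ s G → μ[G|mt μ D s] =ᵐ[μ] 0 →
      JJY κ G ≤ ε * ∫ x, ‖G x‖ ^ 2 ∂μ)
    (hm : Measurable F) (hF : MemLp F 2 μ) (h0 : μ[F|D] =ᵐ[μ] 0) :
    JJY κ F ≤ 4 * ε * ∫ x, ‖F x‖ ^ 2 ∂μ := by
  set I := ∫ x, ‖F x‖ ^ 2 ∂μ with hI
  refine le_of_forall_pos_le_add fun η hη => ?_
  have hPκ : IsProbabilityMeasure κ := hκ.prob
  set η' : ℝ := η / (8 + 16 * ε) with hη'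
  have hη'0 : 0 < η' := by positivity
  obtain ⟨F', hF', hn⟩ := exists_bf_near hm hF hη'0
  have hF'2 : MemLp F' 2 μ := bf_memLp (μ := μ) hF'
  obtain ⟨g, hg, hgD, hge⟩ := ce_bf (μ := μ) (𝒜 := D) hD hF'
  have hg2 : MemLp g 2 μ := bf_memLp hg
  have hR2 : MemLp (fun x => F x - F' x) 2 μ := hF.sub hF'2
  -- `g` is small
  have hgs : ∫ x, ‖g x‖ ^ 2 ∂μ ≤ η' := by
    have h1 : (fun x => ‖g x‖ ^ 2) =ᵐ[μ] fun x => ‖(μ[fun x => F x - F' x|D]) x‖ ^ 2 := by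
      have h2 := ce_sub (𝒜 := D) (hF.integrable (by norm_num) : Integrable F μ)
        (hF'2.integrable (by norm_num) : Integrable F' μ)
      filter_upwards [h2, h0, hge] with x h3 h4 h5
      rw [h3, h4, h5]
      simp
    rw [integral_congr_ae h1]
    exact (ce_sq_le hR2).trans hn
  set G : Ω → ℂ := fun x => F' x - g x with hG
  have hGb : BF G := bf_sub hF' hg
  have hG2 : MemLp G 2 μ := bf_memLp hGb
  have hG0 : μ[G|mt μ D s] =ᵐ[μ] 0 := by
    have h1 : μ[G|D] =ᵐ[μ] 0 := by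
      have h2 := ce_sub (𝒜 := D) (hF'2.integrable (by norm_num) : Integrable F' μ)
        (hg2.integrable (by norm_num) : Integrable g μ)
      have h3 : μ[g|D] =ᵐ[μ] g := ce_of_am hD (hg2.integrable (by norm_num)) hgD
      filter_upwards [h2, h3, hge] with x h4 h5 h6
      rw [h4, h5, h6]
      simp
    exact ce_zero_lq lm_mt hD hq (hG2.integrable (by norm_num)) h1
  have hJG := h G hGb (hsD G hGb.1) hG0
  -- the rest
  have hK2 : MemLp (fun x => F x - G x) 2 μ := hF.sub hG2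
  have hK : ∫ x, ‖F x - G x‖ ^ 2 ∂μ ≤ 4 * η' := by
    have h1 := sq_add_le hR2 hg2
    have h2 : ∫ x, ‖F x - G x‖ ^ 2 ∂μ = ∫ x, ‖(F x - F' x) + g x‖ ^ 2 ∂μ := by
      congr 1
      ext x
      simp only [hG]
      congr 2
      ring
    rw [h2]
    linarith
  have h1 : JJY κ F = JJY κ (fun x => (F x - G x) + G x) := by
    refine JJY_congr hκ (Eventually.of_forall fun x => ?_)
    simp
  have h2 := JJY_add_le hκ hK2 hG2
  have h3 := JJY_le hκ hK2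
  have h4 : ∫ x, ‖G x‖ ^ 2 ∂μ ≤ 2 * I + 8 * η' := by
    have h5 := sq_add_le hF (hG2.sub hF)
    have h6 : ∫ x, ‖G x‖ ^ 2 ∂μ = ∫ x, ‖F x + (G - F) x‖ ^ 2 ∂μ := by
      congr 1
      ext x
      simp
    have h7 : ∫ x, ‖(G - F) x‖ ^ 2 ∂μ = ∫ x, ‖F x - G x‖ ^ 2 ∂μ := by
      congr 1
      ext x
      rw [Pi.sub_apply, norm_sub_rev]
    rw [h6]
    rw [h7] at h5
    linarith
  have h5 : η' * (8 + 16 * ε) ≤ η := by
    rw [hη']
    field_simp
    exact le_rfl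
  rw [h1]
  have h6 : JJY κ G ≤ ε * (2 * I + 8 * η') := hJG.trans (mul_le_mul_of_nonneg_left h4 hε)
  nlinarith [h2, h3, hK, h6, h5, mul_nonneg hε hη'0.le]

end jj

/-- the masses for all levels -/
theorem tv_all (tst : ST_TST) (tcl : ST_TCL) {Ω : Type} [MeasurableSpace Ω] {μ : Measure Ω}
    [IsProbabilityMeasure μ] {S S' : Ω → Ω} {u : ℕ → Ω → ℂ} {A : ℕ → SA Ω} {N : ℕ}
    (hS : St μ S S') (hT : Tr μ S u A N) (k : ℕ) :
    ∀ G : Ω → ℂ, MemLp G 2 μ → AM μ (A k) G → TV μ S S' G := by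
  induction k with
  | zero =>
    intro G hG hA
    rw [hT.zero] at hA
    obtain ⟨c, hc⟩ := am_bo.1 hA
    obtain ⟨h1, -, -, h4, -⟩ := tcl Ω μ S S' (St.s1 hS)
    exact h1 _ _ (h4 c) hc.symm
  | succ k ih => exact tst Ω μ S S' u A N k hS hT ih

theorem st_MHA (bmt : ST_BMT) (abx : ST_ABX) (sgt : ST_SGT) (smc : ST_SMC) (hux : ST_HUX)
    (val : ST_VAL) (tst : ST_TST) (tcl : ST_TCL) : ST_MHA := by
  intro Ω m0 μ _ S S' u A N hS hT R₀ k G ε hε hG
  obtain ⟨s, hs, htop⟩ := sgt Ω μ S S' u A N hS hT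
  obtain ⟨hsia, -, hvp⟩ := val Ω μ S S' u A N hS hT s hs
  obtain ⟨q₁, hq₁⟩ := hvp (ε / 4) (by positivity)
  -- the masses
  have htv : ∀ i, TV μ S S' (G i) := by
    intro i
    refine tv_all tst tcl hS hT N (G i) (hG i) ?_
    have h1 := hT.top _ (hG i).1.stronglyMeasurable_mk.measurable
    exact am_congr h1 (hG i).1.ae_eq_mk.symm
  choose q₂ hq₂ using fun i => htv i ε hε
  refine ⟨max (max q₁ (Finset.univ.sup q₂)) ((R₀ ^ 2) ^ 2 ^ N + 1), fun q hq hqp p hp hpq κ hκ => ?_⟩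
  have hq1 : q₁ ≤ q := (le_max_left _ _).trans ((le_max_left _ _).trans hq)
  have hq2 : ∀ i, q₂ i ≤ q := fun i => (Finset.le_sup (f := q₂) (Finset.mem_univ i)).trans
    ((le_max_right _ _).trans ((le_max_left _ _).trans hq))
  have hq3 : (R₀ ^ 2) ^ 2 ^ N < q := (le_max_right _ _).trans hq
  obtain ⟨D, hD⟩ := hux Ω μ S S' u A N p q κ hS hT hp hqp hpq hκ
  have hDL : Lm D := hD.ia.1
  obtain ⟨-, hmt, -⟩ := bmt Ω μ S S' D s (St.s1 hS) hDL hsia.1
  refine ⟨D, ⟨hD.ia, hD.c, hD.s, ?_⟩, ?_, ?_⟩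
  · -- modules of small rank
    intro M hM hM0 hMR
    have hSM : SM μ D (jo D (A N)) S^[p] (R₀ ^ 2) := by
      refine smc Ω μ S^[p] S'^[p] D (A N) N (R₀ ^ 2) (hS.sys p) (hS.erg p hp.one_lt.le)
        (hD.ia.iterate p) ((abx Ω μ S S' (St.s1 hS)).2 u A N hT N p).2 ?_
      intro ψ hψ _ hi m hm1 hm2 hmψ
      refine hD.c ψ hψ hi m hm1 ?_ hmψ
      have h1 : m < q := lt_of_le_of_lt hm2 hq3
      exact (Nat.coprime_of_lt_prime (by omega) h1 hqp).symm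
    have hin : InH μ (fun _ => 1) (jo D (A N)) M := by
      intro g _
      have h1 : AM μ (A N) (g : Ω → ℂ) :=
        am_congr (hT.top _ (Lp.aestronglyMeasurable g).stronglyMeasurable_mk.measurable)
          (Lp.aestronglyMeasurable g).ae_eq_mk.symm
      refine am_congr (am_jo_right h1) (Eventually.of_forall fun x => ?_)
      simp
    exact hSM (fun _ => 1) uf_one inc_one M hM hM0 hin hMR
  · intro F hFm hF hF0
    have h1 := v_memLp (p := p) (q := q) (S := S) hDL htop (fun f hf => ((hmt f).1 hf).1) hκ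
      (by positivity : (0 : ℝ) ≤ ε / 4)
      (fun G hG hGs hG0 => hq₁ q hq1 hqp p hp hpq κ hκ D hD G hG hGs hG0) hFm hF hF0
    calc JJY κ F ≤ 4 * (ε / 4) * ∫ x, ‖F x‖ ^ 2 ∂μ := h1
      _ = ε * ∫ x, ‖F x‖ ^ 2 ∂μ := by ring
  · intro i
    refine hq₂ i q (hq2 i) hqp D ⟨hD.ia, fun ψ hψ hi hψD => ?_⟩
    refine hD.e ψ hψ hi 1 le_rfl (Nat.coprime_one_left q) ?_
    have hP : IsProbabilityMeasure κ := hκ.prob
    refine am_jo_right ?_
    obtain ⟨g, hg, hψg⟩ := am_iff.1 hψD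
    refine am_iff.2 ⟨fun z => g z.1, ?_, ?_⟩
    · exact hg.comp (comap_measurable (Prod.fst : Ω × Ω → Ω))
    · have := (jy_mp1 hκ).quasiMeasurePreserving.ae hψg
      filter_upwards [this] with z hz
      rw [pow_one, hz]

end Pool.Agent.Helper98.TA
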