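import Pool.Agent.Helper98.TA.Basic
import Pool.Agent.Helper73.TWR.Tool

/-!
Sheet TA (MP_7a8f48_an), row VAL: the estimate for all stages.
-/

set_option linter.unusedSectionVars false

open MeasureTheory Filter Topology Finset
open scoped ComplexConjugate

namespace Pool.Agent.Helper98.TA

open Pool.Agent.Helper98.TW
open Pool.Agent.Helper40.TWM (St HQ)
open Pool.Agent.Helper98.GY (JY JJY)

section

variable {Ω : Type} [m0 : MeasurableSpace Ω] {μ : Measure Ω} [IsProbabilityMeasure μ]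
  {S S' : Ω → Ω} {p q : ℕ} {κ : Measure (Ω × Ω)} {D E s : SA Ω} {F G : Ω → ℂ}

theorem lm_mt : Lm (mt μ D E) := lm_sg fun _ h => h.1

theorem JJY_congr (h : JY S μ p q κ) (hFG : F =ᵐ[μ] G) : JJY κ F = JJY κ G := by
  have h1 : (fun z : Ω × Ω => F z.1) =ᵐ[κ] fun z => G z.1 :=
    (jy_mp1 h).quasiMeasurePreserving.ae hFG
  have h2 := condExp_congr_ae (μ := κ) (m := MeasurableSpace.comap Prod.snd m0) h1
  unfold JJY
  refine integral_congr_ae ?_
  filter_upwards [h2] with z hz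
  rw [hz]

theorem JJY_zero (h : JY S μ p q κ) (hF : F =ᵐ[μ] 0) : JJY κ F = 0 := by
  rw [JJY_congr h hF]
  unfold JJY
  have h1 : κ[fun z : Ω × Ω => (0 : Ω → ℂ) z.1|MeasurableSpace.comap Prod.snd m0] = 0 := by
    have : (fun z : Ω × Ω => (0 : Ω → ℂ) z.1) = 0 := rfl
    rw [this, condExp_zero]
  rw [h1]
  simp

/-- the estimate for the trivial algebra -/
theorem vp_bo : Vp μ S S' (bo : SA Ω) := by
  intro ε hε
  refine ⟨0, fun q _ _ p _ _ κ hκ D _ G hG hGb h0 => ?_⟩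
  obtain ⟨c, hc⟩ := am_bo.1 hGb
  have h1 : μ[G|mt μ D (bo : SA Ω)] =ᵐ[μ] fun _ => c := by
    have h2 := condExp_congr_ae (μ := μ) (m := mt μ D (bo : SA Ω)) hc
    rw [condExp_const (lm_mt : Lm (mt μ D (bo : SA Ω)))] at h2
    exact h2
  have hc0 : c = 0 := by
    obtain ⟨x, hx⟩ := (h1.symm.trans h0).exists
    exact hx
  have hG0 : G =ᵐ[μ] 0 := by
    filter_upwards [hc] with x hx
    rw [hx, hc0]
    rfl
  rw [JJY_zero hκ hG0]
  exact mul_nonneg hε.le (integral_nonneg fun x => by positivity)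

end

theorem vp_ct (abx : ST_ABX) (vcl : ST_VCL) (vto : ST_VTO) {Ω : Type} [MeasurableSpace Ω]
    {μ : Measure Ω} [IsProbabilityMeasure μ] {S S' : Ω → Ω} (hS : St μ S S') {s E : SA Ω}
    (hs : Sg μ S s) (hv : Vp μ S S' s) (hc : Ct μ S s E) : Vp μ S S' E := by
  induction hc with
  | refl => exact hv
  | step E τ M hc hτ hi hM hτM ih =>
    obtain ⟨hE, l, hl⟩ := (abx Ω μ S S' (St.s1 hS)).1 s E hs hc
    exact vto Ω μ S S' E τ M hS hE hτ hi hM hτM (vcl Ω μ S S' E l hS hE hl ih)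

theorem st_VAL (abx : ST_ABX) (rsb : ST_RSB) (rss : ST_RSS) (rie : ST_RIE) (vcl : ST_VCL)
    (vto : ST_VTO) (vfr : ST_VFR) : ST_VAL := by
  intro Ω _ μ _ S S' u A N hS hT s hs
  induction hs with
  | zero => exact ⟨ia_bo (St.s1 hS), rsb Ω μ S, vp_bo⟩
  | succ s E hs hc hsa ih =>
    obtain ⟨hia, hri, hvp⟩ := ih
    obtain ⟨hE, l, hl⟩ := (abx Ω μ S S' (St.s1 hS)).1 s E hs hc
    have h1 : Ri μ S (fr μ S E) := rss Ω μ S S' u A N s E hS hT hia hc hsa hri
    have h2 : Ri μ S E := rie Ω μ S S' s E hS hia hc hsa hri h1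
    have h3 : Vp μ S S' E := vp_ct abx vcl vto hS hs hvp hc
    exact ⟨ia_fr (St.s1 hS) hE, h1, vfr Ω μ S S' s E hS hia hc hsa hri h1 h2
      (vcl Ω μ S S' E l hS hE hl h3)⟩

end Pool.Agent.Helper98.TA
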