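import Pool.Agent.Helper98.GY.Defs

/-!
Iterated extensions by compact abelian Lie groups (MP_7a8f48_an): definitions of the sheet TA.
The definitions of `Helper98.TW` on sigma algebras are used. There are no coordinates.
-/

open MeasureTheory Filter Topology Finset
open scoped ComplexConjugate

namespace Pool.Agent.Helper98.TA

open Pool.Agent.Helper98.TW (SA jo bo cm AM UF BF Sys Lm IA LQ Inc sg Grp SM Sat al)
open Pool.Agent.Helper40.TWM (St HQ)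
open Pool.Agent.Helper98.GY (JY JJY)

section

variable {Ω : Type} [m0 : MeasurableSpace Ω]

/-! ### extensions -/

/-- the unimodular functions with increments in `E` -/
def Ga (μ : Measure Ω) (S : Ω → Ω) (E : SA Ω) : Set (Ω → ℂ) := {φ | UF μ φ ∧ Inc μ E S φ}

/-- the unimodular functions which are powers of `u` up to `E`-measurable functions -/
def Pw (μ : Measure Ω) (E : SA Ω) (u : Ω → ℂ) : Set (Ω → ℂ) :=
  {φ | UF μ φ ∧ ∃ n : ℤ, AM μ E fun x => φ x * conj (u x ^ n)}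

/-- the extension of `E` by the function `u` -/
noncomputable def ad (μ : Measure Ω) (E : SA Ω) (u : Ω → ℂ) : SA Ω := jo E (sg (Pw μ E u))

/-- the extension of `E` by all unimodular functions with increments in `E` -/
noncomputable def fr (μ : Measure Ω) (S : Ω → Ω) (E : SA Ω) : SA Ω := jo E (sg (Ga μ S E))

/-- the intersection of two sigma algebras (up to null sets) -/
noncomputable def mt (μ : Measure Ω) (D E : SA Ω) : SA Ω := sg {f | Measurable f ∧ AM μ D f ∧ AM μ E f}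

/-- `E` is saturated: there is no torsion in the unimodular functions with increments in `E` -/
def Sa (μ : Measure Ω) (S : Ω → Ω) (E : SA Ω) : Prop := ∀ ψ, UF μ ψ → Inc μ E S ψ →
  ∀ M : ℕ, 1 ≤ M → AM μ E (fun x => ψ x ^ M) → AM μ E ψ

/-- a tower of `N` extensions which exhausts the space -/
structure Tr (μ : Measure Ω) (S : Ω → Ω) (u : ℕ → Ω → ℂ) (A : ℕ → SA Ω) (N : ℕ) : Prop where
  zero : A 0 = bo
  succ : ∀ k, A (k + 1) = ad μ (A k) (u k)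
  uf : ∀ k, UF μ (u k)
  inc : ∀ k, Inc μ (A k) S (u k)
  top : ∀ f : Ω → ℂ, Measurable f → AM μ (A N) f

/-- torsion extensions of `s` -/
inductive Ct (μ : Measure Ω) (S : Ω → Ω) (s : SA Ω) : SA Ω → Prop
  | refl : Ct μ S s s
  | step (E : SA Ω) (τ : Ω → ℂ) (M : ℕ) : Ct μ S s E → UF μ τ → Inc μ E S τ → 1 ≤ M →
      AM μ E (fun x => τ x ^ M) → Ct μ S s (ad μ E τ)

/-- stages -/
inductive Sg (μ : Measure Ω) (S : Ω → Ω) : SA Ω → Prop
  | zero : Sg μ S bo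
  | succ (s E : SA Ω) : Sg μ S s → Ct μ S s E → Sa μ S E → Sg μ S (fr μ S E)

/-- chains of `l` abelian extensions -/
inductive Ab (μ : Measure Ω) (R : Ω → Ω) (a : SA Ω) : SA Ω → ℕ → Prop
  | refl : Ab μ R a a 0
  | step (b : SA Ω) (l : ℕ) (Φ : Set (Ω → ℂ)) : Ab μ R a b l → Grp μ Φ →
      (∀ φ ∈ Φ, Inc μ b R φ) → Ab μ R a (jo b (sg Φ)) (l + 1)

/-! ### joinings -/

/-- the algebra `E` of the first coordinate -/
noncomputable def J1 (E : SA Ω) : SA (Ω × Ω) := cm Prod.fst E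

/-- the algebra `E` of the second coordinate -/
noncomputable def J2 (E : SA Ω) : SA (Ω × Ω) := cm Prod.snd E

/-- the second coordinate -/
noncomputable def B2 (Ω : Type) [MeasurableSpace Ω] : SA (Ω × Ω) :=
  cm Prod.snd (inferInstance : MeasurableSpace Ω)

/-- `ψ` is visible: measurable for the second coordinate and `D` -/
def Vi (κ : Measure (Ω × Ω)) (D : SA Ω) (ψ : Ω → ℂ) : Prop :=
  AM κ (jo (B2 Ω) (J1 D)) (fun z => ψ z.1)

/-- up to a constant `ψ` is the `q`-th power of an eigenfunction -/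
def Dv (μ : Measure Ω) (S : Ω → Ω) (q : ℕ) (ψ : Ω → ℂ) : Prop :=
  ∃ φ : Ω → ℂ, UF μ φ ∧ Inc μ bo S φ ∧ AM μ bo (fun x => ψ x * conj (φ x ^ q))

/-- the property for which the hull is maximal -/
def QQ (μ : Measure Ω) (S : Ω → Ω) (q : ℕ) (κ : Measure (Ω × Ω)) (D : SA Ω) : Prop :=
  ∀ ψ, UF μ ψ → Inc μ bo S ψ → ∀ M : ℕ, 1 ≤ M → Nat.Coprime M q →
    Vi κ D (fun x => ψ x ^ M) → Dv μ S q ψ

/-- the properties of the hull -/
structure Hl (μ : Measure Ω) (S S' : Ω → Ω) (p q : ℕ) (κ : Measure (Ω × Ω)) (D : SA Ω) :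
    Prop where
  ia : IA μ D S S'
  e : QQ μ S q κ D
  c : ∀ ψ, UF μ ψ → Inc μ D S^[p] ψ → ∀ M : ℕ, 1 ≤ M → Nat.Coprime M q →
    AM μ D (fun x => ψ x ^ M) → AM μ D ψ
  s : ∀ ψ, UF μ ψ → Inc μ D S^[p] ψ → Inc μ D S ψ
  b : ∀ ψ, UF μ ψ → Inc μ D S^[p] ψ → Vi κ D ψ → AM μ D ψ

/-- for all ergodic joinings of powers the first coordinate is relatively independent of the
algebra `E` of the second coordinate over the algebra `E` of the first coordinate -/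
def Ri (μ : Measure Ω) (S : Ω → Ω) (E : SA Ω) : Prop :=
  ∀ (p q : ℕ) (κ : Measure (Ω × Ω)), 1 ≤ p → 1 ≤ q → JY S μ p q κ → ∀ F : Ω → ℂ, BF F →
    κ[fun z => F z.1|jo (J1 E) (J2 E)] =ᵐ[κ] κ[fun z => F z.1|J1 E]

/-- the averages of the correlations tend to zero -/
def A0 {Ω : Type} [MeasurableSpace Ω] (μ : Measure Ω) (C : SA Ω) (R : Ω → Ω) (F : Ω → ℂ) :
    Prop := Tendsto (fun H : ℕ => al μ C R (fun _ => 1) F H) atTop (𝓝 0)

/-- the estimate for the bounded `E`-measurable functions -/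
def Vp (μ : Measure Ω) (S S' : Ω → Ω) (E : SA Ω) : Prop := ∀ ε : ℝ, 0 < ε →
  ∃ q₀ : ℕ, ∀ q ≥ q₀, q.Prime → ∀ p : ℕ, p.Prime → p ≠ q → ∀ κ : Measure (Ω × Ω),
    JY S μ p q κ → ∀ D : SA Ω, Hl μ S S' p q κ D → ∀ G : Ω → ℂ, BF G → AM μ E G →
    μ[G|mt μ D E] =ᵐ[μ] 0 → JJY κ G ≤ ε * ∫ x, ‖G x‖ ^ 2 ∂μ

/-- the class estimate: functions in `h L²(E)`, where `h` has increments in `E` -/
def Vc (μ : Measure Ω) (S S' : Ω → Ω) (E : SA Ω) : Prop := ∀ ε : ℝ, 0 < ε →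
  ∃ q₀ : ℕ, ∀ q ≥ q₀, q.Prime → ∀ p : ℕ, p.Prime → p ≠ q → ∀ κ : Measure (Ω × Ω),
    JY S μ p q κ → ∀ D : SA Ω, Hl μ S S' p q κ D → ∀ h F : Ω → ℂ, UF μ h → Inc μ E S h → BF F →
    AM μ E (fun x => conj (h x) * F x) →
    (∀ ψ, UF μ ψ → Inc μ (mt μ D E) S^[p] ψ → AM μ E (fun x => conj (h x) * ψ x) →
      AM μ D ψ → μ[fun x => conj (ψ x) * F x|mt μ D E] =ᵐ[μ] 0) →
    JJY κ F ≤ ε * ∫ x, ‖F x‖ ^ 2 ∂μ

/-! ### masses -/

/-- invariant algebras whose eigenfunctions are divisible by `q` -/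
def Dq (μ : Measure Ω) (S S' : Ω → Ω) (q : ℕ) (D : SA Ω) : Prop :=
  IA μ D S S' ∧ ∀ ψ, UF μ ψ → Inc μ bo S ψ → AM μ D ψ → Dv μ S q ψ

/-- the masses of `G` in these algebras tend to the mass of the mean -/
def TV (μ : Measure Ω) (S S' : Ω → Ω) (G : Ω → ℂ) : Prop := ∀ ε : ℝ, 0 < ε →
  ∃ q₀ : ℕ, ∀ q ≥ q₀, q.Prime → ∀ D : SA Ω, Dq μ S S' q D →
    ∫ x, ‖(μ[G|D]) x - ∫ y, G y ∂μ‖ ^ 2 ∂μ ≤ ε

end

end Pool.Agent.Helper98.TA
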